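import Pool.Agent.X8.MA.Iron

/-!
# Moral auctions with independent values: no gain over truthful auctions

One item, `n` players, values on the grid `0, 1/m, 2/m, …, 1`, independent with arbitrary full
support distributions (identical or not, regular or not). We show that a revenue-optimal truthful
mechanism is revenue-optimal among all `α`-moral mechanisms, for every `α ∈ [0, 1]`.

Proof. Let `ψ i` be the ironed virtual value of player `i`. In a `1`-moral mechanism the payment of a
winner depends only on the bids of the others, so that every line of profiles has a price; a player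
*accepts* if her value is at least the price. The payment of the winner is at most the price of the
accepting player with the highest value. Order the players by their values and let `m k` be the
maximum of `0` and the ironed virtual values of the first `k` players. The payment at a profile is at
most the final maximum plus the sum of `max (price, m (k-1)) - m k` over the accepting players `k`,
and the expectation of each of these summands along a line is at most `0`.
-/

set_option autoImplicit false

namespace Pool.Agent.Results.MP_e3b71d_lc.IndependentValues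

open Finset Function

/-- the value `k / m` of the grid `0, 1/m, …, 1` -/
noncomputable def val (m : ℕ) (k : Fin (m + 1)) : ℝ := (k : ℝ) / m

/-- profiles of values or bids -/
abbrev Profile (n m : ℕ) := Fin n → Fin (m + 1)

/-- a deterministic direct mechanism: the player who gets the item (or nobody), and the payments;
individually rational and without positive transfers -/
structure Mechanism (n m : ℕ) where
  f : Profile n m → Option (Fin n)
  p : Profile n m → Fin n → ℝ
  ir : ∀ b i, p b i ≤ if f b = some i then val m (b i) else 0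
  nonneg : ∀ b i, 0 ≤ p b i

variable {n m : ℕ}

open Classical in
/-- the profit `π_i(b | t)` of player `i` with true value `t` when the bid profile is `b` -/
noncomputable def profit (M : Mechanism n m) (b : Profile n m) (i : Fin n) (t : Fin (m + 1)) : ℝ :=
  (if M.f b = some i then val m t else 0) - M.p b i

/-- `α`-moral mechanisms -/
def Moral (α : ℝ) (M : Mechanism n m) : Prop :=
  ∀ (v : Profile n m) (i : Fin n) (v' : Fin (m + 1)),
    0 < profit M (update v i v') i (v i) - profit M v i (v i) →
    profit M (update v i v') i (v i) - profit M v i (v i) ≤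
      α * ∑ j ∈ univ.erase i, (profit M v j (v j) - profit M (update v i v') j (v j))

/-- (dominant-strategy) truthful mechanisms -/
def Truthful (M : Mechanism n m) : Prop :=
  ∀ (v : Profile n m) (i : Fin n) (v' : Fin (m + 1)),
    profit M (update v i v') i (v i) ≤ profit M v i (v i)

/-- expected revenue when the values are independent, player `i` having the value `t` with
probability `F i t` -/
noncomputable def Rev (F : Fin n → Fin (m + 1) → ℝ) (M : Mechanism n m) : ℝ :=
  ∑ v : Profile n m, (∏ i, F i (v i)) * ∑ i, M.p v i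

/-- `R_T` -/
noncomputable def RT (F : Fin n → Fin (m + 1) → ℝ) : ℝ :=
  sSup {r | ∃ M : Mechanism n m, Truthful M ∧ Rev F M = r}

/-- `R_α` -/
noncomputable def RM (F : Fin n → Fin (m + 1) → ℝ) (α : ℝ) : ℝ :=
  sSup {r | ∃ M : Mechanism n m, Moral α M ∧ Rev F M = r}

/-! ### The grid -/

lemma val_nonneg (t : Fin (m + 1)) : 0 ≤ val m t := by unfold val; positivity

lemma val_mono {s t : Fin (m + 1)} (h : s ≤ t) : val m s ≤ val m t := by
  unfold val
  exact div_le_div_of_nonneg_right (by exact_mod_cast h) (by positivity)

lemma val_le_one (t : Fin (m + 1)) : val m t ≤ 1 := by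
  unfold val
  apply div_le_one_of_le₀ _ (by positivity)
  exact_mod_cast Nat.lt_succ_iff.1 t.2

/-! ### Resampling one coordinate -/

lemma resample (F : Fin n → Fin (m + 1) → ℝ) (hF1 : ∀ i, ∑ t, F i t = 1) (i : Fin n)
    (g : Profile n m → ℝ) :
    ∑ v : Profile n m, (∏ j, F j (v j)) * ∑ t, F i t * g (update v i t) =
      ∑ v : Profile n m, (∏ j, F j (v j)) * g v := by
  classical
  let e : (Profile n m × Fin (m + 1)) → (Profile n m × Fin (m + 1)) :=
    fun x => (update x.1 i x.2, x.1 i)
  have he : Involutive e := by
    rintro ⟨v, t⟩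
    simp [e]
  have hw : ∀ (v : Profile n m) (t : Fin (m + 1)),
      (∏ j, F j (v j)) * F i t = (∏ j, F j ((update v i t) j)) * F i (v i) := by
    intro v t
    rw [← mul_prod_erase univ (fun j => F j (v j)) (mem_univ i),
      ← mul_prod_erase univ (fun j => F j ((update v i t) j)) (mem_univ i)]
    have : ∏ j ∈ univ.erase i, F j ((update v i t) j) = ∏ j ∈ univ.erase i, F j (v j) := by
      refine prod_congr rfl fun j hj => ?_
      rw [update_of_ne (ne_of_mem_erase hj)]
    rw [this, update_self]
    ring
  calc ∑ v : Profile n m, (∏ j, F j (v j)) * ∑ t, F i t * g (update v i t)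
      = ∑ v : Profile n m, ∑ t, ((∏ j, F j (v j)) * F i t) * g (update v i t) := by
        refine sum_congr rfl fun v _ => ?_
        rw [mul_sum]
        exact sum_congr rfl fun t _ => by ring
    _ = ∑ x : Profile n m × Fin (m + 1), ((∏ j, F j (x.1 j)) * F i x.2) * g (update x.1 i x.2) := by
        rw [Fintype.sum_prod_type]
    _ = ∑ x : Profile n m × Fin (m + 1), ((∏ j, F j ((e x).1 j)) * F i (e x).2) * g (e x).1 := by
        refine sum_congr rfl fun x _ => ?_
        rw [hw]
    _ = ∑ x : Profile n m × Fin (m + 1), ((∏ j, F j (x.1 j)) * F i x.2) * g x.1 :=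
        Equiv.sum_comp he.toPerm
          (fun x : Profile n m × Fin (m + 1) => ((∏ j, F j (x.1 j)) * F i x.2) * g x.1)
    _ = ∑ v : Profile n m, ∑ t, ((∏ j, F j (v j)) * F i t) * g v := by
        rw [Fintype.sum_prod_type]
    _ = ∑ v : Profile n m, (∏ j, F j (v j)) * g v := by
        refine sum_congr rfl fun v _ => ?_
        rw [← sum_mul, ← mul_sum, hF1, mul_one]

/-! ### Ordering the players by their values -/

/-- an injective rank: players with higher values have higher ranks -/
def rk (v : Profile n m) (j : Fin n) : ℕ := (v j : ℕ) * (n + 1) + (n - j)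

lemma rk_inj (v : Profile n m) : Injective (rk v) := by
  intro j l h
  unfold rk at h
  have hj := j.2
  have hl := l.2
  have h1 : ((v j : ℕ) * (n + 1) + (n - j)) % (n + 1) = n - j := by
    rw [mul_comm, Nat.mul_add_mod, Nat.mod_eq_of_lt (by omega)]
  have h2 : ((v l : ℕ) * (n + 1) + (n - l)) % (n + 1) = n - l := by
    rw [mul_comm, Nat.mul_add_mod, Nat.mod_eq_of_lt (by omega)]
  rw [h, h2] at h1
  apply Fin.ext
  omega

lemma le_of_rk {v : Profile n m} {j l : Fin n} (h : rk v j ≤ rk v l) : v j ≤ v l := by
  unfold rk at h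
  have hj := j.2
  have hl := l.2
  by_contra hc
  have hc' : (v l : ℕ) + 1 ≤ (v j : ℕ) := by
    rw [not_le] at hc
    exact_mod_cast hc
  have := Nat.mul_le_mul_right (n + 1) hc'
  rw [add_mul] at this
  omega

section upper

variable (ψ : Fin n → Fin (m + 1) → ℝ)

open scoped NNReal

/-- the maximum of `0` and the numbers `ψ j (v j)` of the players of rank at least `x` -/
noncomputable def mx (v : Profile n m) (x : ℕ) : ℝ :=
  (((univ.filter fun j => x ≤ rk v j).sup fun j => (ψ j (v j)).toNNReal : ℝ≥0) : ℝ)

lemma mx_nonneg (v : Profile n m) (x : ℕ) : 0 ≤ mx ψ v x := NNReal.coe_nonneg _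

lemma mx_anti (v : Profile n m) : Antitone (mx ψ v) := by
  intro x y h
  unfold mx
  exact NNReal.coe_le_coe.2 (sup_mono fun j hj => by
    simp only [mem_filter, mem_univ, true_and] at hj ⊢
    omega)

lemma le_mx {v : Profile n m} {x : ℕ} {j : Fin n} (h : x ≤ rk v j) : ψ j (v j) ≤ mx ψ v x := by
  refine le_trans (Real.le_coe_toNNReal _) ?_
  unfold mx
  exact NNReal.coe_le_coe.2 (le_sup (f := fun j => (ψ j (v j)).toNNReal) (by simpa using h))

lemma mx_self (v : Profile n m) (i : Fin n) :
    mx ψ v (rk v i) = max (mx ψ v (rk v i + 1)) (max 0 (ψ i (v i))) := by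
  have h1 : (univ.filter fun j => rk v i ≤ rk v j) =
      insert i (univ.filter fun j => rk v i + 1 ≤ rk v j) := by
    ext j
    simp only [mem_filter, mem_univ, true_and, mem_insert]
    constructor
    · intro h
      rcases h.eq_or_lt with h | h
      · exact Or.inl (rk_inj v h.symm)
      · exact Or.inr h
    · rintro (rfl | h)
      · exact le_rfl
      · omega
  unfold mx
  rw [h1, sup_insert, NNReal.coe_max, max_comm, Real.coe_toNNReal', max_comm (ψ i (v i)) 0]

/-- telescoping -/
lemma tele (v : Profile n m) (N : ℕ) (J : Finset (Fin n)) (hJ : ∀ j ∈ J, rk v j < N) :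
    mx ψ v N - mx ψ v 0 ≤ ∑ j ∈ J, (mx ψ v (rk v j + 1) - mx ψ v (rk v j)) := by
  have h1 : ∑ j ∈ J, (mx ψ v (rk v j) - mx ψ v (rk v j + 1)) =
      ∑ x ∈ J.image (rk v), (mx ψ v x - mx ψ v (x + 1)) := by
    rw [sum_image fun a _ b _ h => rk_inj v h]
  have h2 : ∑ x ∈ J.image (rk v), (mx ψ v x - mx ψ v (x + 1)) ≤
      ∑ x ∈ range N, (mx ψ v x - mx ψ v (x + 1)) := by
    refine sum_le_sum_of_subset_of_nonneg ?_ fun x _ _ => ?_
    · intro x hx
      obtain ⟨j, hj, rfl⟩ := mem_image.1 hx
      exact mem_range.2 (hJ j hj)
    · have := mx_anti ψ v (Nat.le_succ x)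
      simpa using this
  rw [sum_range_sub'] at h2
  have h3 : ∑ j ∈ J, (mx ψ v (rk v j + 1) - mx ψ v (rk v j)) =
      - ∑ j ∈ J, (mx ψ v (rk v j) - mx ψ v (rk v j + 1)) := by
    rw [← sum_neg_distrib]
    exact sum_congr rfl fun j _ => by ring
  rw [h3, h1]
  linarith

/-- along a line the maximum over the players above `i` decreases with the value of `i` -/
lemma mx_line (v : Profile n m) (i : Fin n) {s t : Fin (m + 1)} (h : s ≤ t) :
    mx ψ (update v i t) (rk (update v i t) i + 1) ≤ mx ψ (update v i s) (rk (update v i s) i + 1) := by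
  have hr : rk (update v i s) i ≤ rk (update v i t) i := by
    unfold rk
    simp only [update_self]
    have : (s : ℕ) ≤ (t : ℕ) := h
    have := Nat.mul_le_mul_right (n + 1) this
    omega
  unfold mx
  refine NNReal.coe_le_coe.2 (Finset.sup_le fun j hj => ?_)
  simp only [mem_filter, mem_univ, true_and] at hj
  have hji : j ≠ i := by
    rintro rfl
    omega
  have hrj : rk (update v i t) j = rk (update v i s) j := by
    unfold rk
    rw [update_of_ne hji, update_of_ne hji]
  have hmem : j ∈ univ.filter fun j => rk (update v i s) i + 1 ≤ rk (update v i s) j := by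
    simp only [mem_filter, mem_univ, true_and]
    omega
  have := le_sup (f := fun j => (ψ j ((update v i s) j)).toNNReal) hmem
  simp only [update_of_ne hji] at this ⊢
  exact this

/-- the inequality along a line -/
lemma line_ineq (F : Fin n → Fin (m + 1) → ℝ) (hF : ∀ i t, 0 < F i t)
    (hψ : ∀ i s, val m s * ∑ t ∈ univ.filter (fun t => s ≤ t), F i t ≤
      ∑ t ∈ univ.filter (fun t => s ≤ t), F i t * ψ i t)
    (v : Profile n m) (i : Fin n) (P : ℝ) :
    ∑ t, F i t * (if P ≤ val m t then
      max P (mx ψ (update v i t) (rk (update v i t) i + 1)) -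
        mx ψ (update v i t) (rk (update v i t) i) else 0) ≤ 0 := by
  classical
  set c : Fin (m + 1) → ℝ := fun t => mx ψ (update v i t) (rk (update v i t) i + 1) with hc
  have hc' : ∀ t, mx ψ (update v i t) (rk (update v i t) i) = max (c t) (max 0 (ψ i t)) := by
    intro t
    rw [mx_self, update_self]
  have hanti : ∀ s t, s ≤ t → c t ≤ c s := fun s t h => mx_line ψ v i h
  set T := univ.filter (fun t => P ≤ val m t ∧ c t ≤ P) with hT
  have h1 : ∀ t, F i t * (if P ≤ val m t then
      max P (mx ψ (update v i t) (rk (update v i t) i + 1)) -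
        mx ψ (update v i t) (rk (update v i t) i) else 0) ≤
      if P ≤ val m t ∧ c t ≤ P then F i t * (P - ψ i t) else 0 := by
    intro t
    rw [hc' t]
    by_cases h2 : P ≤ val m t
    · by_cases h3 : c t ≤ P
      · simp only [h2, h3, and_self, if_true]
        apply mul_le_mul_of_nonneg_left _ (hF i t).le
        rw [max_eq_left h3]
        have : ψ i t ≤ max (c t) (max 0 (ψ i t)) := (le_max_right _ _).trans (le_max_right _ _)
        linarith
      · simp only [h2, h3, and_false, if_true, if_false]
        apply mul_nonpos_of_nonneg_of_nonpos (hF i t).le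
        have h4 : max P (c t) = c t := max_eq_right (not_le.1 h3).le
        have h5 : c t ≤ max (c t) (max 0 (ψ i t)) := le_max_left _ _
        show max P (c t) - max (c t) (max 0 (ψ i t)) ≤ 0
        rw [h4]
        linarith
    · simp [h2]
  refine le_trans (sum_le_sum fun t _ => h1 t) ?_
  rw [← sum_filter, ← hT]
  by_cases hne : T.Nonempty
  · set τ := T.min' hne with hτ
    have hτT : τ ∈ T := T.min'_mem hne
    have hτ' : P ≤ val m τ ∧ c τ ≤ P := by simpa [hT] using hτT
    have hTeq : T = univ.filter (fun t => τ ≤ t) := by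
      ext t
      constructor
      · intro ht
        simpa using T.min'_le t ht
      · intro ht
        simp only [mem_filter, mem_univ, true_and] at ht
        simp only [hT, mem_filter, mem_univ, true_and]
        exact ⟨hτ'.1.trans (val_mono ht), (hanti _ _ ht).trans hτ'.2⟩
    rw [hTeq]
    have h2 : ∑ t ∈ univ.filter (fun t => τ ≤ t), F i t * (P - ψ i t) ≤
        ∑ t ∈ univ.filter (fun t => τ ≤ t), F i t * (val m τ - ψ i t) := by
      refine sum_le_sum fun t _ => ?_
      exact mul_le_mul_of_nonneg_left (by linarith [hτ'.1]) (hF i t).le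
    refine h2.trans ?_
    have h3 : ∑ t ∈ univ.filter (fun t => τ ≤ t), F i t * (val m τ - ψ i t) =
        val m τ * ∑ t ∈ univ.filter (fun t => τ ≤ t), F i t -
          ∑ t ∈ univ.filter (fun t => τ ≤ t), F i t * ψ i t := by
      rw [mul_sum, ← sum_sub_distrib]
      exact sum_congr rfl fun t _ => by ring
    rw [h3]
    linarith [hψ i τ]
  · rw [not_nonempty_iff_eq_empty.1 hne, sum_empty]

end upper

/-! ### Moral mechanisms -/

section moral

variable (M : Mechanism n m)

lemma p_zero {b : Profile n m} {i : Fin n} (h : M.f b ≠ some i) : M.p b i = 0 := by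
  have h1 := M.ir b i
  rw [if_neg h] at h1
  exact le_antisymm h1 (M.nonneg b i)

lemma profit_zero {b : Profile n m} {i : Fin n} (h : M.f b ≠ some i) (t : Fin (m + 1)) :
    profit M b i t = 0 := by
  unfold profit
  rw [if_neg h, p_zero M h, sub_zero]

lemma profit_self_nonneg (b : Profile n m) (i : Fin n) : 0 ≤ profit M b i (b i) := by
  unfold profit
  have := M.ir b i
  linarith

/-- the price on a line -/
noncomputable def price (i : Fin n) (v : Profile n m) : ℝ :=
  open Classical in
  if h : ∃ t, M.f (update v i t) = some i then M.p (update v i h.choose) i else 2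

lemma price_update (i : Fin n) (v : Profile n m) (s : Fin (m + 1)) :
    price M i (update v i s) = price M i v := by
  unfold price
  simp only [update_idem]

lemma price_nonneg (i : Fin n) (v : Profile n m) : 0 ≤ price M i v := by
  unfold price
  split_ifs with h
  · exact M.nonneg _ _
  · norm_num

/-- the two properties of `1`-moral mechanisms -/
lemma moral_gain {α : ℝ} (h0 : 0 ≤ α) (h1 : α ≤ 1) (hM : Moral α M) (v : Profile n m) (i : Fin n)
    (v' : Fin (m + 1)) (hpos : 0 < profit M (update v i v') i (v i) - profit M v i (v i)) :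
    profit M (update v i v') i (v i) - profit M v i (v i) ≤
      ∑ j ∈ univ.erase i, (profit M v j (v j) - profit M (update v i v') j (v j)) := by
  have h := hM v i v' hpos
  set S := ∑ j ∈ univ.erase i, (profit M v j (v j) - profit M (update v i v') j (v j))
  have hS : 0 < α * S := lt_of_lt_of_le hpos h
  have hS' : 0 ≤ S := by
    by_contra hc
    push Not at hc
    have := mul_nonpos_of_nonneg_of_nonpos h0 hc.le
    linarith
  refine h.trans ?_
  nlinarith

lemma same_price {α : ℝ} (h0 : 0 ≤ α) (h1 : α ≤ 1) (hM : Moral α M) (v : Profile n m) (i : Fin n)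
    (t : Fin (m + 1)) (hv : M.f v = some i) (ht : M.f (update v i t) = some i) :
    M.p v i ≤ M.p (update v i t) i := by
  by_contra hc
  push Not at hc
  have e1 : profit M (update v i t) i (v i) - profit M v i (v i) =
      M.p v i - M.p (update v i t) i := by
    unfold profit
    rw [if_pos hv, if_pos ht]
    ring
  have hpos : 0 < profit M (update v i t) i (v i) - profit M v i (v i) := by
    rw [e1]; linarith
  have h := moral_gain M h0 h1 hM v i t hpos
  have h2 : ∑ j ∈ univ.erase i, (profit M v j (v j) - profit M (update v i t) j (v j)) = 0 := by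
    refine sum_eq_zero fun j hj => ?_
    have hji := ne_of_mem_erase hj
    rw [profit_zero M (by rw [hv]; exact fun h => hji (Option.some.inj h).symm),
      profit_zero M (by rw [ht]; exact fun h => hji (Option.some.inj h).symm), sub_zero]
  linarith

lemma price_eq {α : ℝ} (h0 : 0 ≤ α) (h1 : α ≤ 1) (hM : Moral α M) (v : Profile n m) (i : Fin n)
    (hv : M.f v = some i) : price M i v = M.p v i := by
  have hex : ∃ t, M.f (update v i t) = some i := ⟨v i, by rwa [update_eq_self]⟩
  unfold price
  rw [dif_pos hex]
  apply le_antisymm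
  · have := same_price M h0 h1 hM (update v i hex.choose) i (v i) hex.choose_spec (by
      rw [update_idem, update_eq_self]; exact hv)
    rwa [update_idem, update_eq_self] at this
  · exact same_price M h0 h1 hM v i hex.choose hv hex.choose_spec

/-- the winner has the largest profit at the line prices -/
lemma winner_profit {α : ℝ} (h0 : 0 ≤ α) (h1 : α ≤ 1) (hM : Moral α M) (v : Profile n m)
    (w : Fin n) (hw : M.f v = some w) (i : Fin n) :
    val m (v i) - price M i v ≤ val m (v w) - M.p v w := by
  have hw0 : 0 ≤ val m (v w) - M.p v w := by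
    have := M.ir v w
    rw [if_pos hw] at this
    linarith
  by_cases hiw : i = w
  · subst hiw
    rw [price_eq M h0 h1 hM v i hw]
  by_cases hex : ∃ t, M.f (update v i t) = some i
  · by_cases hle : val m (v i) ≤ price M i v
    · linarith
    push Not at hle
    unfold price at hle ⊢
    rw [dif_pos hex] at hle ⊢
    set t := hex.choose
    have ht : M.f (update v i t) = some i := hex.choose_spec
    have hvi : M.f v ≠ some i := by
      rw [hw]; exact fun h => hiw (Option.some.inj h).symm
    have e1 : profit M (update v i t) i (v i) - profit M v i (v i) =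
        val m (v i) - M.p (update v i t) i := by
      rw [profit_zero M hvi]
      unfold profit
      rw [if_pos ht]
      ring
    have h := moral_gain M h0 h1 hM v i t (by rw [e1]; linarith)
    rw [e1] at h
    refine h.trans ?_
    have h2 : ∑ j ∈ univ.erase i, (profit M v j (v j) - profit M (update v i t) j (v j)) =
        profit M v w (v w) := by
      rw [sum_eq_single_of_mem w (mem_erase.2 ⟨Ne.symm hiw, mem_univ _⟩)]
      · rw [profit_zero M (b := update v i t) (by
          rw [ht]; exact fun h => hiw (Option.some.inj h)), sub_zero]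
      · intro j hj hjw
        rw [profit_zero M (by rw [hw]; exact fun h => hjw (Option.some.inj h).symm),
          profit_zero M (by rw [ht]; exact fun h => (ne_of_mem_erase hj) (Option.some.inj h).symm),
          sub_zero]
    rw [h2]
    unfold profit
    rw [if_pos hw]
  · unfold price
    rw [dif_neg hex]
    have := val_le_one (v i)
    linarith

/-- **Upper bound** for the revenue of moral mechanisms -/
theorem rev_le (F : Fin n → Fin (m + 1) → ℝ) (hF : ∀ i t, 0 < F i t) (hF1 : ∀ i, ∑ t, F i t = 1)
    (ψ : Fin n → Fin (m + 1) → ℝ)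
    (hψ : ∀ i s, val m s * ∑ t ∈ univ.filter (fun t => s ≤ t), F i t ≤
      ∑ t ∈ univ.filter (fun t => s ≤ t), F i t * ψ i t)
    {α : ℝ} (h0 : 0 ≤ α) (h1 : α ≤ 1) (hM : Moral α M) :
    Rev F M ≤ ∑ v : Profile n m, (∏ i, F i (v i)) * mx ψ v 0 := by
  classical
  set s : Fin n → Profile n m → ℝ := fun i v =>
    if price M i v ≤ val m (v i) then max (price M i v) (mx ψ v (rk v i + 1)) - mx ψ v (rk v i)
    else 0 with hs
  -- pointwise
  have hpt : ∀ v : Profile n m, ∑ i, M.p v i ≤ mx ψ v 0 + ∑ i, s i v := by
    intro v
    set A := univ.filter (fun i => price M i v ≤ val m (v i)) with hA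
    have hsum : ∑ i, s i v =
        ∑ i ∈ A, (max (price M i v) (mx ψ v (rk v i + 1)) - mx ψ v (rk v i)) := by
      rw [hA, sum_filter]
    have hr : ∀ w, M.f v = some w → ∑ i, M.p v i = M.p v w := by
      intro w hw
      refine sum_eq_single_of_mem w (mem_univ w) fun j _ hj => ?_
      exact p_zero M (by rw [hw]; exact fun h => hj (Option.some.inj h).symm)
    by_cases hne : A.Nonempty
    · obtain ⟨k, hkA, hk⟩ := A.exists_max_image (rk v) hne
      have hkacc : price M k v ≤ val m (v k) := by simpa [hA] using hkA
      have hrk : ∑ i, M.p v i ≤ price M k v := by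
        cases hfv : M.f v with
        | none =>
          have : ∑ i, M.p v i = 0 := sum_eq_zero fun i _ => p_zero M (by rw [hfv]; simp)
          rw [this]
          exact price_nonneg M k v
        | some w =>
          rw [hr w hfv]
          have hwA : w ∈ A := by
            simp only [hA, mem_filter, mem_univ, true_and]
            rw [price_eq M h0 h1 hM v w hfv]
            have := M.ir v w
            rwa [if_pos hfv] at this
          have h2 := le_of_rk (hk w hwA)
          have h3 := winner_profit M h0 h1 hM v w hfv k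
          have h4 := val_mono h2
          linarith
      have h2 : ∑ i ∈ A, (max (price M i v) (mx ψ v (rk v i + 1)) - mx ψ v (rk v i)) =
          (max (price M k v) (mx ψ v (rk v k + 1)) - mx ψ v (rk v k)) +
          ∑ i ∈ A.erase k, (max (price M i v) (mx ψ v (rk v i + 1)) - mx ψ v (rk v i)) :=
        (add_sum_erase A _ hkA).symm
      have h3 : ∑ i ∈ A.erase k, (mx ψ v (rk v i + 1) - mx ψ v (rk v i)) ≤
          ∑ i ∈ A.erase k, (max (price M i v) (mx ψ v (rk v i + 1)) - mx ψ v (rk v i)) :=
        sum_le_sum fun i _ => by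
          have := le_max_right (price M i v) (mx ψ v (rk v i + 1))
          linarith
      have h4 := tele ψ v (rk v k) (A.erase k) (by
        intro j hj
        have hjA := mem_of_mem_erase hj
        have hjk := ne_of_mem_erase hj
        exact lt_of_le_of_ne (hk j hjA) fun h => hjk (rk_inj v h))
      have h5 := le_max_left (price M k v) (mx ψ v (rk v k + 1))
      rw [hsum, h2]
      linarith
    · rw [hsum, not_nonempty_iff_eq_empty.1 hne, sum_empty, add_zero]
      have : ∑ i, M.p v i = 0 := by
        refine sum_eq_zero fun i _ => ?_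
        apply p_zero
        intro hfi
        apply hne
        refine ⟨i, ?_⟩
        simp only [hA, mem_filter, mem_univ, true_and]
        rw [price_eq M h0 h1 hM v i hfi]
        have := M.ir v i
        rwa [if_pos hfi] at this
      rw [this]
      exact mx_nonneg ψ v 0
  have hw0 : ∀ v : Profile n m, 0 ≤ ∏ i, F i (v i) := fun v => prod_nonneg fun i _ => (hF i _).le
  have h2 : Rev F M ≤ ∑ v : Profile n m, (∏ i, F i (v i)) * (mx ψ v 0 + ∑ i, s i v) := by
    unfold Rev
    exact sum_le_sum fun v _ => mul_le_mul_of_nonneg_left (hpt v) (hw0 v)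
  have h3 : ∀ i, ∑ v : Profile n m, (∏ j, F j (v j)) * s i v ≤ 0 := by
    intro i
    rw [← resample F hF1 i (s i)]
    refine sum_nonpos fun v _ => ?_
    apply mul_nonpos_of_nonneg_of_nonpos (hw0 v)
    have h4 := line_ineq ψ F hF hψ v i (price M i v)
    refine le_trans (le_of_eq ?_) h4
    refine sum_congr rfl fun t _ => ?_
    simp only [hs, price_update, update_self]
  have h5 : ∑ v : Profile n m, (∏ i, F i (v i)) * (mx ψ v 0 + ∑ i, s i v) =
      ∑ v : Profile n m, (∏ i, F i (v i)) * mx ψ v 0 +
        ∑ i, ∑ v : Profile n m, (∏ j, F j (v j)) * s i v := by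
    rw [sum_comm, ← sum_add_distrib]
    refine sum_congr rfl fun v _ => ?_
    rw [mul_add, mul_sum]
  rw [h5] at h2
  have h6 : ∑ i, ∑ v : Profile n m, (∏ j, F j (v j)) * s i v ≤ 0 := sum_nonpos fun i _ => h3 i
  linarith

end moral

/-! ### Virtual values -/

/-- the discrete virtual value `φ(x) = x - ε (1 - Pr[v ≤ x]) / Pr[v = x]` at `x = t/m`, `ε = 1/m` -/
noncomputable def virt (G : Fin (m + 1) → ℝ) (t : Fin (m + 1)) : ℝ :=
  val m t - (1 / m) * ((∑ u ∈ univ.filter (fun u => t < u), G u) / G t)

lemma tail_virt (hm : 1 ≤ m) (G : Fin (m + 1) → ℝ) (hG : ∀ t, 0 < G t) (s : Fin (m + 1)) :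
    ∑ t ∈ univ.filter (fun t => s ≤ t), G t * virt G t =
      val m s * ∑ t ∈ univ.filter (fun t => s ≤ t), G t := by
  have hm' : (m : ℝ) ≠ 0 := by
    have : (0 : ℝ) < m := by exact_mod_cast hm
    exact this.ne'
  have hsplit : ∀ s : Fin (m + 1), (univ.filter fun t => s ≤ t) =
      insert s (univ.filter fun t => s < t) := by
    intro s
    ext t
    simp only [mem_filter, mem_univ, true_and, mem_insert]
    constructor
    · intro h
      rcases h.eq_or_lt with h | h
      · exact Or.inl h.symm
      · exact Or.inr h
    · rintro (rfl | h)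
      · exact le_rfl
      · exact h.le
  have hnot : ∀ s : Fin (m + 1), s ∉ (univ.filter fun t => s < t) := by
    intro s
    simp
  have hstep : ∀ s : Fin (m + 1), G s * virt G s + (val m s + 1 / m) * ∑ u ∈ univ.filter (fun u => s < u), G u =
      val m s * ∑ t ∈ univ.filter (fun t => s ≤ t), G t := by
    intro s
    rw [hsplit, sum_insert (hnot s)]
    unfold virt
    have := (hG s).ne'
    field_simp
    ring
  induction s using Fin.reverseInduction with
  | last =>
    have h0 : (univ.filter fun t => Fin.last m < t) = ∅ := by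
      ext t
      simp only [mem_filter, mem_univ, true_and, notMem_empty, iff_false, not_lt]
      exact Fin.le_last t
    have := hstep (Fin.last m)
    rw [h0, sum_empty, mul_zero, add_zero] at this
    rw [← this, hsplit, sum_insert (hnot _), h0, sum_empty, add_zero]
  | cast s ih =>
    have h0 : (univ.filter fun t => s.castSucc < t) = univ.filter fun t => s.succ ≤ t := by
      ext t
      simp only [mem_filter, mem_univ, true_and]
      exact Fin.castSucc_lt_iff_succ_le
    have h1 := hstep s.castSucc
    rw [hsplit, sum_insert (hnot _), h0, ih]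
    rw [h0] at h1
    have h2 : val m s.succ = val m s.castSucc + 1 / m := by
      unfold val
      simp only [Fin.val_succ, Fin.val_castSucc]
      push_cast
      ring
    rw [h2, h1]
    congr 1
    rw [hsplit, sum_insert (hnot _), h0, sum_insert]
    rw [← h0]
    exact hnot _

/-! ### The truthful mechanism -/

section lower

variable (ψ : Fin n → Fin (m + 1) → ℝ)

/-- player `i` wins: she has the highest `ψ i (v i) > 0`, ties going to the smallest index -/
def Wins (v : Profile n m) (i : Fin n) : Prop :=
  0 < ψ i (v i) ∧ ∀ j, ψ j (v j) < ψ i (v i) ∨ (ψ j (v j) = ψ i (v i) ∧ i ≤ j)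

lemma wins_unique {v : Profile n m} {i j : Fin n} (hi : Wins ψ v i) (hj : Wins ψ v j) : i = j := by
  rcases hi.2 j with h | ⟨h, h'⟩
  · rcases hj.2 i with h1 | ⟨h1, _⟩
    · exact absurd h1 (not_lt.2 h.le)
    · exact absurd h1 h.ne'
  · rcases hj.2 i with h1 | ⟨_, h1'⟩
    · exact absurd h h1.ne'
    · exact le_antisymm h' h1'

lemma wins_congr {v : Profile n m} {i : Fin n} {s t : Fin (m + 1)} (h : ψ i s ≤ ψ i t)
    (hw : Wins ψ (update v i s) i) : Wins ψ (update v i t) i := by
  obtain ⟨h1, h2⟩ := hw
  simp only [update_self] at h1 h2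
  refine ⟨by simp only [update_self]; exact h1.trans_le h, fun j => ?_⟩
  simp only [update_self]
  by_cases hji : j = i
  · subst hji
    simp
  · rw [update_of_ne hji]
    rcases h2 j with h3 | ⟨h3, h4⟩
    · rw [update_of_ne hji] at h3
      exact Or.inl (h3.trans_le h)
    · rw [update_of_ne hji] at h3
      rcases h.eq_or_lt with h5 | h5
      · exact Or.inr ⟨h3.trans h5, h4⟩
      · exact Or.inl (h3 ▸ h5)

open Classical in
/-- the set of winning bids on a line -/
noncomputable def winSet (v : Profile n m) (i : Fin n) : Finset (Fin (m + 1)) :=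
  univ.filter fun t => Wins ψ (update v i t) i

lemma mem_winSet {v : Profile n m} {i : Fin n} {t : Fin (m + 1)} :
    t ∈ winSet ψ v i ↔ Wins ψ (update v i t) i := by
  classical
  simp [winSet]

lemma winSet_update (v : Profile n m) (i : Fin n) (s : Fin (m + 1)) :
    winSet ψ (update v i s) i = winSet ψ v i := by
  ext t
  rw [mem_winSet, mem_winSet, update_idem]

/-- the threshold -/
noncomputable def th (v : Profile n m) (i : Fin n) : Fin (m + 1) :=
  if h : (winSet ψ v i).Nonempty then (winSet ψ v i).min' h else 0

lemma th_update (v : Profile n m) (i : Fin n) (s : Fin (m + 1)) :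
    th ψ (update v i s) i = th ψ v i := by
  unfold th
  simp only [winSet_update]

lemma th_le {v : Profile n m} {i : Fin n} {t : Fin (m + 1)} (h : Wins ψ (update v i t) i) :
    th ψ v i ≤ t := by
  have h1 : t ∈ winSet ψ v i := (mem_winSet ψ).2 h
  unfold th
  rw [dif_pos ⟨t, h1⟩]
  exact min'_le _ _ h1

lemma wins_th {v : Profile n m} {i : Fin n} (h : (winSet ψ v i).Nonempty) :
    Wins ψ (update v i (th ψ v i)) i := by
  have h1 := min'_mem _ h
  unfold th
  rw [dif_pos h]
  exact (mem_winSet ψ).1 h1

lemma exists_wins {v : Profile n m} {j : Fin n} (h : 0 < ψ j (v j)) : ∃ i, Wins ψ v i := by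
  classical
  obtain ⟨k, _, hk⟩ := exists_max_image univ (fun j => ψ j (v j)) ⟨j, mem_univ j⟩
  set J := univ.filter (fun l => ψ l (v l) = ψ k (v k)) with hJ
  have hJne : J.Nonempty := ⟨k, by simp [hJ]⟩
  have hi := J.min'_mem hJne
  have hi' : ψ (J.min' hJne) (v (J.min' hJne)) = ψ k (v k) := by simpa [hJ] using hi
  refine ⟨J.min' hJne, ?_, fun l => ?_⟩
  · rw [hi']
    exact h.trans_le (hk j (mem_univ j))
  · rw [hi']
    rcases (hk l (mem_univ l)).eq_or_lt with h1 | h1
    · right
      exact ⟨h1, min'_le _ _ (by simpa [hJ] using h1)⟩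
    · left
      exact h1

open Classical in
/-- the truthful mechanism of the functions `ψ` -/
noncomputable def mech : Mechanism n m where
  f v := if h : ∃ i, Wins ψ v i then some h.choose else none
  p v i := if Wins ψ v i then val m (th ψ v i) else 0
  ir := by
    intro b i
    by_cases h : Wins ψ b i
    · have h1 : (if h : ∃ i, Wins ψ b i then some h.choose else none) = some i := by
        have hex : ∃ i, Wins ψ b i := ⟨i, h⟩
        rw [dif_pos hex]
        exact congrArg some (wins_unique ψ hex.choose_spec h)
      rw [if_pos h, if_pos h1]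
      apply val_mono
      apply th_le
      rwa [update_eq_self]
    · rw [if_neg h]
      by_cases h2 : (if h : ∃ i, Wins ψ b i then some h.choose else none) = some i
      · rw [if_pos h2]
        exact val_nonneg _
      · rw [if_neg h2]
  nonneg := by
    intro b i
    split_ifs
    · exact val_nonneg _
    · exact le_rfl

lemma mech_f {v : Profile n m} {i : Fin n} : (mech ψ).f v = some i ↔ Wins ψ v i := by
  classical
  unfold mech
  simp only
  constructor
  · intro h
    by_cases hex : ∃ i, Wins ψ v i
    · rw [dif_pos hex] at h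
      rw [← Option.some.inj h]
      exact hex.choose_spec
    · rw [dif_neg hex] at h
      exact absurd h (by simp)
  · intro h
    have hex : ∃ i, Wins ψ v i := ⟨i, h⟩
    rw [dif_pos hex]
    exact congrArg some (wins_unique ψ hex.choose_spec h)

open Classical in
lemma mech_p (v : Profile n m) (i : Fin n) :
    (mech ψ).p v i = if Wins ψ v i then val m (th ψ v i) else 0 := rfl

open Classical in
lemma mech_profit (v : Profile n m) (i : Fin n) (t : Fin (m + 1)) :
    profit (mech ψ) v i t = if Wins ψ v i then val m t - val m (th ψ v i) else 0 := by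
  unfold profit
  rw [mech_p]
  by_cases h : Wins ψ v i
  · rw [if_pos h, if_pos h, if_pos ((mech_f ψ).2 h)]
  · rw [if_neg h, if_neg h, if_neg (fun h' => h ((mech_f ψ).1 h')), sub_zero]

variable {ψ}

lemma mech_truthful (hmono : ∀ i, Monotone (ψ i)) : Truthful (mech ψ) := by
  classical
  intro v i v'
  rw [mech_profit, mech_profit, th_update]
  by_cases h : Wins ψ v i
  · rw [if_pos h]
    have h1 : th ψ v i ≤ v i := th_le ψ (by rwa [update_eq_self])
    split_ifs
    · exact le_rfl
    · have := val_mono h1
      linarith
  · rw [if_neg h]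
    split_ifs with h1
    · have h2 : (winSet ψ v i).Nonempty := ⟨v', (mem_winSet ψ).2 h1⟩
      have h3 : v i ≤ th ψ v i := by
        by_contra hc
        rw [not_le] at hc
        apply h
        have := wins_congr ψ (hmono i hc.le) (wins_th ψ h2)
        rwa [update_eq_self] at this
      have := val_mono h3
      linarith
    · exact le_rfl

/-- payments and virtual values on a line -/
lemma mech_line (F : Fin n → Fin (m + 1) → ℝ) (hmono : ∀ i, Monotone (ψ i))
    (hψ : ∀ i s, (∀ t, t < s → ψ i t < ψ i s) → val m s * ∑ t ∈ univ.filter (fun t => s ≤ t), F i t =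
      ∑ t ∈ univ.filter (fun t => s ≤ t), F i t * ψ i t) (v : Profile n m) (i : Fin n) :
    open Classical in
    ∑ t, F i t * (mech ψ).p (update v i t) i =
      ∑ t, F i t * (if Wins ψ (update v i t) i then ψ i t else 0) := by
  classical
  simp only [mech_p, th_update, mul_ite, mul_zero]
  rw [← sum_filter, ← sum_filter]
  by_cases hne : (winSet ψ v i).Nonempty
  · have hset : (univ.filter fun t => Wins ψ (update v i t) i) =
        univ.filter fun t => th ψ v i ≤ t := by
      ext t
      simp only [mem_filter, mem_univ, true_and]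
      constructor
      · intro h
        exact th_le ψ h
      · intro h
        exact wins_congr ψ (hmono i h) (wins_th ψ hne)
    rw [hset]
    have hj : ∀ t, t < th ψ v i → ψ i t < ψ i (th ψ v i) := by
      intro t ht
      by_contra hc
      rw [not_lt] at hc
      have := th_le ψ (wins_congr ψ hc (wins_th ψ hne))
      exact absurd this (not_le.2 ht)
    rw [← hψ i _ hj, mul_sum]
    exact sum_congr rfl fun t _ => by ring
  · have hset : (univ.filter fun t => Wins ψ (update v i t) i) = ∅ := by
      ext t
      simp only [mem_filter, mem_univ, true_and, notMem_empty, iff_false]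
      intro h
      exact hne ⟨t, (mem_winSet ψ).2 h⟩
    rw [hset, sum_empty, sum_empty]

/-- the revenue of the truthful mechanism -/
lemma le_rev_mech (F : Fin n → Fin (m + 1) → ℝ) (hF : ∀ i t, 0 < F i t) (hF1 : ∀ i, ∑ t, F i t = 1)
    (hmono : ∀ i, Monotone (ψ i))
    (hψ : ∀ i s, (∀ t, t < s → ψ i t < ψ i s) → val m s * ∑ t ∈ univ.filter (fun t => s ≤ t), F i t =
      ∑ t ∈ univ.filter (fun t => s ≤ t), F i t * ψ i t) :
    ∑ v : Profile n m, (∏ i, F i (v i)) * mx ψ v 0 ≤ Rev F (mech ψ) := by
  classical
  have h1 : Rev F (mech ψ) =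
      ∑ v : Profile n m, (∏ i, F i (v i)) * ∑ i, (if Wins ψ v i then ψ i (v i) else 0) := by
    unfold Rev
    simp only [mul_sum]
    rw [sum_comm, sum_comm (s := (univ : Finset (Profile n m)))]
    refine sum_congr rfl fun i _ => ?_
    rw [← resample F hF1 i (fun v => (mech ψ).p v i),
      ← resample F hF1 i (fun v => if Wins ψ v i then ψ i (v i) else 0)]
    refine sum_congr rfl fun v _ => ?_
    rw [mech_line F hmono hψ v i]
    simp only [update_self]
  rw [h1]
  refine sum_le_sum fun v _ => mul_le_mul_of_nonneg_left ?_ (prod_nonneg fun i _ => (hF i _).le)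
  by_cases hex : ∃ i, Wins ψ v i
  · obtain ⟨i, hi⟩ := hex
    have h2 : ∑ j, (if Wins ψ v j then ψ j (v j) else 0) = ψ i (v i) := by
      rw [sum_eq_single_of_mem i (mem_univ i), if_pos hi]
      intro j _ hj
      rw [if_neg fun h => hj (wins_unique ψ h hi)]
    rw [h2]
    unfold mx
    rw [← Real.coe_toNNReal (ψ i (v i)) hi.1.le]
    refine NNReal.coe_le_coe.2 (Finset.sup_le fun j _ => Real.toNNReal_le_toNNReal ?_)
    rcases hi.2 j with h3 | ⟨h3, _⟩
    · exact h3.le
    · exact h3.le
  · have h2 : ∑ j, (if Wins ψ v j then ψ j (v j) else 0) = 0 := by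
      refine sum_eq_zero fun j _ => ?_
      rw [if_neg fun h => hex ⟨j, h⟩]
    rw [h2]
    unfold mx
    have h3 : ((univ.filter fun j => 0 ≤ rk v j).sup fun j => (ψ j (v j)).toNNReal) = 0 := by
      apply le_antisymm _ zero_le
      refine Finset.sup_le fun j _ => ?_
      rw [nonpos_iff_eq_zero, Real.toNNReal_eq_zero]
      by_contra hc
      rw [not_le] at hc
      exact hex (exists_wins ψ hc)
    rw [h3, NNReal.coe_zero]

end lower

/-! ### Main theorem -/

/-- the `0`-moral mechanisms are the truthful ones -/
lemma truthful_iff (M : Mechanism n m) : Moral 0 M ↔ Truthful M := by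
  constructor
  · intro h v i v'
    by_contra hc
    have h1 := h v i v' (by linarith)
    rw [zero_mul] at h1
    linarith
  · intro h v i v' hpos
    have := h v i v'
    linarith

lemma truthful_moral {M : Mechanism n m} (h : Truthful M) (α : ℝ) : Moral α M := by
  intro v i v' hpos
  have := h v i v'
  linarith

/-- **Main theorem.** Let the values be independent, player `i` having the value `t/m` with
probability `F i t > 0`, and let `0 ≤ α ≤ 1`. Then there is a truthful mechanism `T` whose revenue is
the largest one of all truthful mechanisms and also the largest one of all `α`-moral mechanisms, so that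
`R_α = R_T`. No regularity is assumed. -/
theorem result (n m : ℕ) (hm : 1 ≤ m) (F : Fin n → Fin (m + 1) → ℝ) (hF : ∀ i t, 0 < F i t)
    (hF1 : ∀ i, ∑ t, F i t = 1) (α : ℝ) (h0 : 0 ≤ α) (h1 : α ≤ 1) :
    IsGreatest {r | ∃ M : Mechanism n m, Truthful M ∧ Rev F M = r} (RT F) ∧
    IsGreatest {r | ∃ M : Mechanism n m, Moral α M ∧ Rev F M = r} (RM F α) ∧
    RM F α = RT F := by
  classical
  have hex : ∀ i, ∃ ψ : Fin (m + 1) → ℝ, Monotone ψ ∧
      (∀ s, val m s * ∑ t ∈ univ.filter (fun t => s ≤ t), F i t ≤
        ∑ t ∈ univ.filter (fun t => s ≤ t), F i t * ψ t) ∧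
      (∀ s, (∀ t, t < s → ψ t < ψ s) → val m s * ∑ t ∈ univ.filter (fun t => s ≤ t), F i t =
        ∑ t ∈ univ.filter (fun t => s ≤ t), F i t * ψ t) := by
    intro i
    obtain ⟨ψ, hmono, h2, h3⟩ := Pool.Agent.X8.MA.exists_iron (F i) (hF i) (virt (F i))
    refine ⟨ψ, hmono, fun s => ?_, fun s hs => ?_⟩
    · rw [← tail_virt hm (F i) (hF i)]
      exact h2 s
    · rw [← tail_virt hm (F i) (hF i)]
      exact h3 s hs
  choose ψ hmono h2 h3 using hex
  set B := ∑ v : Profile n m, (∏ i, F i (v i)) * mx ψ v 0 with hB
  have hT := mech_truthful hmono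
  have hlow : B ≤ Rev F (mech ψ) := le_rev_mech F hF hF1 hmono h3
  have hup : ∀ (M : Mechanism n m) (β : ℝ), 0 ≤ β → β ≤ 1 → Moral β M → Rev F M ≤ B :=
    fun M β hβ0 hβ1 hM => rev_le M F hF hF1 ψ h2 hβ0 hβ1 hM
  have heq : Rev F (mech ψ) = B :=
    le_antisymm (hup _ 0 le_rfl zero_le_one (truthful_moral hT 0)) hlow
  have g1 : IsGreatest {r | ∃ M : Mechanism n m, Truthful M ∧ Rev F M = r} B := by
    refine ⟨⟨mech ψ, hT, heq⟩, ?_⟩
    rintro r ⟨M, hM, rfl⟩
    exact hup M 0 le_rfl zero_le_one (truthful_moral hM 0)
  have g2 : IsGreatest {r | ∃ M : Mechanism n m, Moral α M ∧ Rev F M = r} B := by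
    refine ⟨⟨mech ψ, truthful_moral hT α, heq⟩, ?_⟩
    rintro r ⟨M, hM, rfl⟩
    exact hup M α h0 h1 hM
  have e1 : RT F = B := g1.csSup_eq
  have e2 : RM F α = B := g2.csSup_eq
  refine ⟨?_, ?_, ?_⟩
  · rw [e1]; exact g1
  · rw [e2]; exact g2
  · rw [e1, e2]

end Pool.Agent.Results.MP_e3b71d_lc.IndependentValues

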